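import Pool.Agent.MP_66cee2_co.B.Ga1
import Pool.Agent.MP_66cee2_co.B.Ch

/-
The Gaussian approximation for an interval of parameters.
-/

namespace Pool.Agent.MP_66cee2_co.H99

open Polynomial Pool.Agent.MP_66cee2_co.B

theorem four_ge (l : ℕ) : Real.exp (5 / 4 * l) ≤ (4 : ℝ) ^ l := by
  rw [mul_comm, Real.exp_nat_mul]
  refine pow_le_pow_left₀ (Real.exp_pos _).le ?_ l
  have h := Real.log_two_gt_d9
  have e : Real.exp (Real.log 2 + Real.log 2) = 4 := by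
    rw [Real.exp_add, Real.exp_log (by norm_num)]; norm_num
  exact le_of_le_of_eq (Real.exp_le_exp.2 (by linarith)) e

theorem gaApp (l : ℕ) (hl : 1 ≤ l) (a : ℝ) (h1 : 37 / 50 * l ≤ a) (h2 : a ≤ 9 / 10 * l) :
    ∃ r : ℝ[X], r.natDegree ≤ l ∧ ∀ k : ℝ,
      |√(a / Real.pi) * Phi (r.comp (X ^ 2)) k - Real.exp (-k ^ 2 / (4 * a))| ≤
        9 * l * Real.exp (-(37 / 50 * l)) := by
  have l1 : (1 : ℝ) ≤ l := by exact_mod_cast hl
  have a0 : 0 < a := by linarith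
  obtain ⟨r, hr, h⟩ := sCh l a 4 a0.le (by norm_num)
  refine ⟨r, hr, fun k => (sGa1 a _ r a0 h k).trans ?_⟩
  have E0 := Real.exp_pos (-(37 / 50 * (l : ℝ)))
  have b1 : ((4 : ℝ) ^ l)⁻¹ * Real.exp (a / 2 * ((4 + 4⁻¹) / 2 - 1)) ≤
      Real.exp (-(37 / 50 * l)) := by
    rw [inv_mul_le_iff₀ (by positivity)]
    refine le_trans ?_ (mul_le_mul_of_nonneg_right (four_ge l) E0.le)
    rw [← Real.exp_add]
    exact Real.exp_le_exp.2 (by norm_num; linarith)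
  have b2 : 2 * Real.exp (-a) / a ≤ 3 * Real.exp (-(37 / 50 * l)) := by
    rw [div_le_iff₀ a0]
    have := Real.exp_le_exp.2 (neg_le_neg h1)
    nlinarith [mul_le_mul_of_nonneg_left (show (37 / 50 : ℝ) ≤ a by linarith) E0.le]
  have b3 : √(a / Real.pi) ≤ l := by
    rw [Real.sqrt_le_left (by linarith), div_le_iff₀ Real.pi_pos]
    nlinarith [Real.pi_gt_three, mul_le_mul_of_nonneg_left l1 (show (0 : ℝ) ≤ l by linarith)]
  have b4 : 2 * (3 * ((4 : ℝ) ^ l)⁻¹ * Real.exp (a / 2 * ((4 + 4⁻¹) / 2 - 1))) +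
      2 * Real.exp (-a) / a ≤ 9 * Real.exp (-(37 / 50 * l)) := by
    rw [mul_assoc 3]; linarith
  calc _ ≤ (l : ℝ) * (9 * Real.exp (-(37 / 50 * l))) :=
        mul_le_mul b3 b4 (by positivity) (by linarith)
    _ = _ := by ring

end Pool.Agent.MP_66cee2_co.H99
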